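import Pool.Agent.Helper73.Off.Basic
import Pool.Agent.Helper73.Sym.Ctb

/-!
The relational notions agree with the operations of the library.
-/

namespace Pool.Agent.Helper73.Off

open Pool.Agent.Helper73.Sym (Fn ap op upair mem_upair mext op_mem_iff ap_spec ap_mem ap_eq
  nat mem_om nat_mem_om mem_nat_zero mem_nat_succ IsFin Ctb StdZF IsZF)

section

variable {M : Type*} [Membership M M] [IsZF M]

theorem sub_iff {x y : M} : Sub x y ↔ Sym.Sub x y := Iff.rfl

theorem isUp_iff {p x y : M} : IsUp p x y ↔ p = upair x y :=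
  ⟨fun h => mext fun z => by rw [h, mem_upair], fun h z => by rw [h, mem_upair]⟩

theorem isOp_iff {p x y : M} : IsOp p x y ↔ p = op x y := by
  simp only [IsOp, isUp_iff]
  constructor
  · rintro ⟨a, b, rfl, rfl, rfl⟩; rfl
  · intro h; exact ⟨_, _, rfl, rfl, h⟩

theorem pr_iff {f x y : M} : Pr f x y ↔ op x y ∈ f := by
  simp only [Pr, isOp_iff, exists_eq_left]

theorem isFn_iff {f X Y : M} : IsFn f X Y ↔ Fn f X Y := by
  simp only [IsFn, Fn, isOp_iff, pr_iff]
  refine and_congr (forall_congr' fun p => imp_congr Iff.rfl ?_) Iff.rfl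
  constructor
  · rintro ⟨x, y, hx, hy, h⟩; exact ⟨x, hx, y, hy, h⟩
  · rintro ⟨x, hx, y, hy, h⟩; exact ⟨x, y, hx, hy, h⟩

theorem pr_ap {f X Y a b : M} (h : Fn f X Y) : Pr f a b ↔ a ∈ X ∧ b = ap f a := by
  rw [pr_iff, op_mem_iff h]

end

section

variable {M : Type*} [Membership M M] [StdZF M]

theorem isOmega_om : IsOmega (Sym.om : M) := by
  refine ⟨⟨⟨nat 0, nat_mem_om 0, mem_nat_zero⟩, ?_⟩, ?_⟩
  · intro n hn
    obtain ⟨k, rfl⟩ := (mem_om n).1 hn
    exact ⟨nat (k + 1), nat_mem_om _, fun z => mem_nat_succ k z⟩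
  · intro w hw z hz
    obtain ⟨k, rfl⟩ := (mem_om z).1 hz
    induction k with
    | zero =>
      obtain ⟨e, he, h⟩ := hw.1
      have : e = nat 0 := mext fun z => iff_of_false (h z) (mem_nat_zero z)
      rwa [← this]
    | succ k ih =>
      obtain ⟨s, hs, h⟩ := hw.2 _ (ih (nat_mem_om k))
      have : s = nat (k + 1) := mext fun z => by rw [h, mem_nat_succ]
      rwa [← this]

theorem finite_iff {x : M} : Finite Sym.om x ↔ IsFin x := by
  simp only [Finite, IsFin, isFn_iff]
  refine exists_congr fun n => and_congr_right fun _ => exists_congr fun f =>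
    and_congr_right fun hf => forall_congr' fun y => imp_congr Iff.rfl (exists_congr fun k =>
    and_congr_right fun hk => ?_)
  rw [pr_ap hf]
  exact ⟨fun h => h.2.symm, fun h => ⟨hk, h.symm⟩⟩

theorem countable_iff {x : M} : Countable Sym.om x ↔ Ctb x := by
  simp only [Countable, Ctb, isFn_iff]
  refine exists_congr fun f => and_congr_right fun hf => ?_
  simp only [pr_ap hf]
  constructor
  · intro h a b ha hb hab
    exact h a b (ap f a) ⟨ha, rfl⟩ ⟨hb, hab⟩
  · rintro h a b c ⟨ha, rfl⟩ ⟨hb, hab⟩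
    exact h a b ha hb hab

end

end Pool.Agent.Helper73.Off
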