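import Pool.Agent.Helper73.Sym.ZF

/-!
Basic notions of set theory inside a structure `(M, ∈)`, in relational form.
-/

namespace Pool.Agent.Helper73.Off

variable {M : Type*} [Membership M M]

/-- `x ⊆ y` -/
def Sub (x y : M) : Prop := ∀ z : M, z ∈ x → z ∈ y

/-- `p = {x, y}` -/
def IsUp (p x y : M) : Prop := ∀ z : M, z ∈ p ↔ z = x ∨ z = y

/-- `p` is the ordered pair `(x, y) = {{x}, {x, y}}` -/
def IsOp (p x y : M) : Prop := ∃ a b : M, IsUp a x x ∧ IsUp b x y ∧ IsUp p a b

/-- the pair `(x, y)` is a member of `f` -/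
def Pr (f x y : M) : Prop := ∃ p : M, IsOp p x y ∧ p ∈ f

/-- `f` is a function from `X` to `Y` -/
def IsFn (f X Y : M) : Prop :=
  (∀ p : M, p ∈ f → ∃ x y : M, x ∈ X ∧ y ∈ Y ∧ IsOp p x y) ∧
    ∀ x : M, x ∈ X → ∃ y : M, Pr f x y ∧ ∀ y' : M, Pr f x y' → y' = y

/-- `w` contains the empty set and is closed under successor -/
def Inductive (w : M) : Prop :=
  (∃ e : M, e ∈ w ∧ ∀ z : M, ¬ z ∈ e) ∧
    ∀ n : M, n ∈ w → ∃ s : M, s ∈ w ∧ ∀ z : M, z ∈ s ↔ z ∈ n ∨ z = n

/-- `w` is the set of natural numbers (the least inductive set) -/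
def IsOmega (w : M) : Prop := Inductive w ∧ ∀ w' : M, Inductive w' → Sub w w'

/-- `x` is finite: there is a function from a natural number onto `x` (`w` is the set of
natural numbers) -/
def Finite (w x : M) : Prop :=
  ∃ n : M, n ∈ w ∧ ∃ f : M, IsFn f n x ∧ ∀ y : M, y ∈ x → ∃ k : M, k ∈ n ∧ Pr f k y

/-- `x` is finite or countably infinite: there is an injection of `x` into the set `w` of
natural numbers -/
def Countable (w x : M) : Prop :=
  ∃ f : M, IsFn f x w ∧ ∀ a b c : M, Pr f a c → Pr f b c → a = b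

end Pool.Agent.Helper73.Off
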